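import Pool.Agent.Helper92.BW.GoalsA

/-! Packet BW-MNA: the volume is compared with the product of the tables at the roots. -/

namespace Pool.Agent.Helper17.BW

open Pool.Agent.Helper92.BW MeasureTheory
open scoped ENNReal Pointwise

theorem ip_zero {n : ℕ} (x : Fin n → ℝ) : ip x 0 = 0 := by
  simp [ip]

theorem ip_smul {n : ℕ} (x y : Fin n → ℝ) (τ : ℝ) : ip x (τ • y) = τ * ip x y := by
  unfold ip
  rw [Finset.mul_sum]
  exact Finset.sum_congr rfl fun j _ => by simp only [Pi.smul_apply, smul_eq_mul]; ring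

theorem PS_smul {n : ℕ} {ι : Type} (a : ι → Fin n → ℝ) (s : ι → ℝ) {τ : ℝ} (hτ : 0 < τ) :
    PS a s τ = τ • PS a s 1 := by
  ext u
  rw [Set.mem_smul_set_iff_inv_smul_mem₀ hτ.ne']
  simp only [PS, Set.mem_setOf_eq, one_mul, ip_smul]
  refine forall_congr' fun r => ?_
  constructor
  · intro h
    have := mul_le_mul_of_nonneg_left h (inv_pos.2 hτ).le
    have e : τ⁻¹ * -(τ * s r) = -s r := by field_simp
    rwa [e] at this
  · intro h
    have := mul_le_mul_of_nonneg_left h hτ.le
    have e : τ * (τ⁻¹ * ip (a r) u) = ip (a r) u := by field_simp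
    have e' : τ * -s r = -(τ * s r) := by ring
    rwa [e, e'] at this

theorem vol_PS {n : ℕ} {ι : Type} (a : ι → Fin n → ℝ) (s : ι → ℝ) {τ : ℝ} (hτ : 0 < τ) :
    volume (PS a s τ) = ENNReal.ofReal (τ ^ n) * volume (PS a s 1) := by
  rw [PS_smul a s hτ, Measure.addHaar_smul, Module.finrank_fin_fun, abs_of_pos (pow_pos hτ n)]

theorem mna (hF : FubStmt) (hT : TlmStmt) (hS : SctStmt) (hU : UpcStmt) (hL : LocStmt) :
    MnaStmt := by
  intro n k ι E _ par low a s G D ctr g o M X N e0 hch hs hG hD hfra htab hctr hfin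
  have hD0 : (0 : ℝ) < D := by
    have : 0 < D := by omega
    exact_mod_cast this
  have hnD : (n : ℝ) / D < 1 := by
    rw [div_lt_one hD0]; exact_mod_cast hD
  have hD1 : 1 ≤ D := by omega
  have hm : 0 < 1 - (n : ℝ) / D := by linarith
  have hp : 0 < 1 + (n : ℝ) / D := by positivity
  have hc : ∀ c : Rt par n, ((c.1.val : ℝ) + 1) / D ≤ (n : ℝ) / D := by
    intro c
    refine div_le_div_of_nonneg_right ?_ hD0.le
    have := c.1.isLt
    exact_mod_cast this
  have hctr0 : ∀ (v : Fin n) (l : Fin k), |ip (g v l) 0 - ctr e0 l| ≤ 1 / (2 * (G : ℝ)) := by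
    intro v l
    rw [ip_zero, hctr l]
    simp only [sub_zero, abs_zero]
    positivity
  obtain ⟨hTa, hTb⟩ := hT n ι par low a s hch
  obtain ⟨hS1, hS2⟩ := hS n par G M hch.2.1
  have hscT := hS2 hG fun v => (hfra.m1 v).1
  have hN : ∀ c : Rt par n, 0 ≤ N c.1 e0 := fun c =>
    (hU n k ι E par low a s G D ctr g o M X N hch hs hG hD1 hfra htab c.1 e0).1
  -- the product
  set Q : ℝ := (∏ v, M v / G) * ∏ c : Rt par n, N c.1 e0 with hQ
  have hQprod : ∏ c : Rt par n, ENNReal.ofReal (scT par G M c.1 * N c.1 e0) =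
      ENNReal.ofReal Q := by
    rw [← ENNReal.ofReal_prod_of_nonneg fun c _ => mul_nonneg (hscT c.1).le (hN c),
      Finset.prod_mul_distrib, hS1]
  have hQ0 : 0 ≤ Q := by
    rw [hQ]
    refine mul_nonneg (Finset.prod_nonneg fun v _ => ?_) (Finset.prod_nonneg fun c _ => hN c)
    have := (hfra.m1 v).1
    positivity
  constructor
  · have h1 : volume (PS a s (1 - (n : ℝ) / D)) ≤ ENNReal.ofReal Q := by
      rw [hF n ι par low a s _ hch 0, ← hQprod]
      refine Finset.prod_le_prod' fun c _ => ?_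
      refine (hTb hs (1 - (n : ℝ) / D) (1 - ((c.1.val : ℝ) + 1) / D) c.1 0
        (by linarith [hc c])).trans ?_
      refine hL n k ι E par low a s G D ctr g o M X N hch hs hG hD1 hfra htab c.1 e0 0 ?_
        (hctr0 c.1)
      intro r
      rw [ip_zero]
      have h2 : 0 ≤ 1 - ((c.1.val : ℝ) + 1) / D := by linarith [hc c]
      have := mul_nonneg h2 (hs r)
      linarith
    rw [vol_PS a s hm] at h1
    have h2 := ENNReal.toReal_mono ENNReal.ofReal_ne_top h1
    rw [ENNReal.toReal_mul, ENNReal.toReal_ofReal (pow_nonneg hm.le n),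
      ENNReal.toReal_ofReal hQ0] at h2
    exact h2
  · have h1 : ENNReal.ofReal Q ≤ volume (PS a s (1 + (n : ℝ) / D)) := by
      rw [hF n ι par low a s _ hch 0, ← hQprod]
      refine Finset.prod_le_prod' fun c _ => ?_
      refine ((hU n k ι E par low a s G D ctr g o M X N hch hs hG hD1 hfra htab c.1 e0).2 0
        (hctr0 c.1)).trans ?_
      exact hTb hs _ _ c.1 0 (by linarith [hc c])
    rw [vol_PS a s hp] at h1
    have htop : ENNReal.ofReal ((1 + (n : ℝ) / D) ^ n) * volume (PS a s 1) ≠ ∞ :=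
      ENNReal.mul_ne_top ENNReal.ofReal_ne_top hfin
    have h2 := ENNReal.toReal_mono htop h1
    rw [ENNReal.toReal_mul, ENNReal.toReal_ofReal (pow_nonneg hp.le n),
      ENNReal.toReal_ofReal hQ0] at h2
    exact h2

end Pool.Agent.Helper17.BW
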