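import Pool.Agent.Helper92.BW.GoalsC
import Pool.Agent.Helper38.FR.PTF
import Pool.Agent.Helper62.FR.PTN

/-!
# BW, packet PFR: the frames and the grid are computed in polynomial time
-/

namespace Pool.Agent.Helper17.BW

open Pool.Agent.Helper81.CC Pool.Agent.Bin Pool.Agent.Helper92.VP Pool.Agent.Helper92.FR
  Pool.Agent.Helper92.BW

variable {α : Type} [ToData α]

@[fun_prop] theorem ptb_rowsub {f : α → Qn} {x y : α → List Qn} (hf : PolyTime f)
    (hx : PolyTime x) (hy : PolyTime y) : PolyTime (fun a => rowsub (f a) (x a) (y a)) := by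
  unfold rowsub
  apply PolyTime.zipWith _ hx hy
  fun_prop

@[fun_prop] theorem ptb_smul {x : α → Qn} {v : α → List Qn} (hx : PolyTime x)
    (hv : PolyTime v) : PolyTime (fun a => smul (x a) (v a)) := by
  unfold smul
  fun_prop

@[fun_prop] theorem ptb_addv {x y : α → List Qn} (hx : PolyTime x)
    (hy : PolyTime y) : PolyTime (fun a => addv (x a) (y a)) := by
  unfold addv
  apply PolyTime.zipWith _ hx hy
  fun_prop

@[fun_prop] theorem ptb_zerov {n : α → ℕ} (hn : PolyTime n) :
    PolyTime (fun a => zerov (n a)) := by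
  unfold zerov
  fun_prop

@[fun_prop] theorem ptb_unitv {n v : α → ℕ} (hn : PolyTime n) (hv : PolyTime v) :
    PolyTime (fun a => unitv (n a) (v a)) := by
  unfold unitv
  fun_prop

@[fun_prop] theorem ptb_gE {F : α → List (List Qn × List Qn)} {j : α → ℕ} (hF : PolyTime F) (hj : PolyTime j) :
    PolyTime (fun a => gE (F a) (j a)) := by
  unfold gE
  fun_prop

@[fun_prop] theorem ptb_yE {F : α → List (List Qn × List Qn)} {j : α → ℕ} (hF : PolyTime F) (hj : PolyTime j) :
    PolyTime (fun a => yE (F a) (j a)) := by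
  unfold yE
  fun_prop

@[fun_prop] theorem ptb_resk (j : ℕ) {F : α → List (List Qn × List Qn)} {f : α → List Qn} (hF : PolyTime F)
    (hf : PolyTime f) : PolyTime (fun a => resk j (F a) (f a)) := by
  induction j with
  | zero => exact hf
  | succ j ih =>
    simp only [resk]
    fun_prop

@[fun_prop] theorem ptb_amx {n : α → ℕ} {U : α → List (List Qn)} {g : α → List Qn}
    (hn : PolyTime n) (hU : PolyTime U) (hg : PolyTime g) :
    PolyTime (fun a => amx (n a) (U a) (g a)) := by
  unfold amx
  fun_prop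

@[fun_prop] theorem ptb_mxv {n : α → ℕ} {U : α → List (List Qn)} {g : α → List Qn}
    (hn : PolyTime n) (hU : PolyTime U) (hg : PolyTime g) :
    PolyTime (fun a => mxv (n a) (U a) (g a)) := by
  unfold mxv
  fun_prop

@[fun_prop] theorem ptb_prn {n : α → ℕ} {U : α → List (List Qn)} {g : α → List Qn}
    (hn : PolyTime n) (hU : PolyTime U) (hg : PolyTime g) :
    PolyTime (fun a => prn (n a) (U a) (g a)) := by
  unfold prn
  fun_prop

@[fun_prop] theorem ptb_nxt (j : ℕ) {n : α → ℕ} {F : α → List (List Qn × List Qn)} {Φ U : α → List (List Qn)}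
    (hn : PolyTime n) (hF : PolyTime F) (hΦ : PolyTime Φ) (hU : PolyTime U) :
    PolyTime (fun a => nxt (n a) j (F a) (Φ a) (U a)) := by
  unfold nxt
  fun_prop

@[fun_prop] theorem ptb_frm (j : ℕ) {n : α → ℕ} {Φ U : α → List (List Qn)}
    (hn : PolyTime n) (hΦ : PolyTime Φ) (hU : PolyTime U) :
    PolyTime (fun a => frm (n a) (Φ a) (U a) j) := by
  induction j with
  | zero =>
    simp only [frm]
    fun_prop
  | succ j ih =>
    simp only [frm]
    fun_prop

@[fun_prop] theorem ptb_ownr (k : ℕ) {n v : α → ℕ} {U Φ : α → List (List Qn)}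
    (hn : PolyTime n) (hv : PolyTime v) (hU : PolyTime U) (hΦ : PolyTime Φ) :
    PolyTime (fun a => ownr (n a) k (U a) (Φ a) (v a)) := by
  unfold ownr
  fun_prop

@[fun_prop] theorem ptb_fr (k : ℕ) {n v : α → ℕ} {U Φ : α → List (List Qn)}
    (hn : PolyTime n) (hv : PolyTime v) (hU : PolyTime U) (hΦ : PolyTime Φ) :
    PolyTime (fun a => fr (n a) k (U a) (Φ a) (v a)) := by
  unfold fr
  fun_prop

@[fun_prop] theorem ptb_msc (k : ℕ) {n v : α → ℕ} {U Φ : α → List (List Qn)}
    (hn : PolyTime n) (hv : PolyTime v) (hU : PolyTime U) (hΦ : PolyTime Φ) :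
    PolyTime (fun a => msc (n a) k (U a) (Φ a) (v a)) := by
  unfold msc
  fun_prop

@[fun_prop] theorem ptb_gq {G d : α → ℕ} (hG : PolyTime G) (hd : PolyTime d) :
    PolyTime (fun a => gq (G a) (d a)) := by
  unfold gq
  fun_prop

@[fun_prop] theorem ptb_powc (j : ℕ) {G : α → ℕ} (hG : PolyTime G) :
    PolyTime (fun a => (2 * G a + 1) ^ j) := by
  exact PolyTime.pow (f := fun a => 2 * G a + 1) (by fun_prop) j

@[fun_prop] theorem ptb_back (j : ℕ) {F : α → List (List Qn × List Qn)} {G e : α → ℕ} {x : α → List Qn}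
    (hF : PolyTime F) (hG : PolyTime G) (he : PolyTime e) (hx : PolyTime x) :
    PolyTime (fun a => back j (F a) (G a) (e a) (x a)) := by
  induction j generalizing x with
  | zero => exact hx
  | succ j ih =>
    simp only [back]
    apply ih
    fun_prop

@[fun_prop] theorem ptb_cidx (j : ℕ) {F : α → List (List Qn × List Qn)} {G : α → ℕ} {x : α → List Qn}
    (hF : PolyTime F) (hG : PolyTime G) (hx : PolyTime x) :
    PolyTime (fun a => cidx j (F a) (G a) (x a)) := by
  induction j with
  | zero =>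
    simp only [cidx]
    fun_prop
  | succ j ih =>
    simp only [cidx]
    fun_prop

@[fun_prop] theorem ptb_ezero (j : ℕ) {G : α → ℕ} (hG : PolyTime G) :
    PolyTime (fun a => ezero j (G a)) := by
  induction j with
  | zero =>
    simp only [ezero]
    fun_prop
  | succ j ih =>
    simp only [ezero]
    fun_prop

@[fun_prop] theorem ptb_gpt (k : ℕ) {n G e i : α → ℕ} {F : α → List (List Qn × List Qn)} (hn : PolyTime n)
    (hG : PolyTime G) (hF : PolyTime F) (he : PolyTime e) (hi : PolyTime i) :
    PolyTime (fun a => gpt k (n a) (G a) (F a) (e a) (i a)) := by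
  unfold gpt
  fun_prop

/-- PFR. -/
theorem pfr : PfrStmt := by
  intro k α _ n v G e i U Φ F x hn hv hG he hi hU hΦ hF hx
  exact ⟨by fun_prop, by fun_prop, by fun_prop, by fun_prop, by fun_prop⟩

end Pool.Agent.Helper17.BW
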